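import Pool.Agent.W364.WP.Four
import Pool.Agent.H370R2.Digamma

open Complex MeasureTheory Set Filter Topology FourierTransform

namespace Pool.Agent.W364.WP

/-- termwise integration under a product bound -/
lemma tsum_int {F : ℕ → ℝ → ℂ} {B : ℕ → ℝ} {D : ℝ → ℝ} (hm : ∀ n, Continuous (F n))
    (hD : Integrable D) (hB : Summable B) (hb : ∀ n v, ‖F n v‖ ≤ B n * D v) :
    Integrable (fun v => ∑' n, F n v) ∧ ∫ v, ∑' n, F n v = ∑' n, ∫ v, F n v := by
  have hi : ∀ n, Integrable (F n) := fun n =>
    (hD.const_mul (B n)).mono' (hm n).aestronglyMeasurable (Eventually.of_forall (hb n))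
  have hp : ∀ v, Summable (fun n => F n v) := fun v =>
    Summable.of_norm_bounded (hB.mul_right (D v)) (fun n => hb n v)
  constructor
  · refine (hD.const_mul (∑' n, B n)).mono' ?_ (Eventually.of_forall fun v => ?_)
    · refine aestronglyMeasurable_of_tendsto_ae atTop
        (f := fun N v => ∑ n ∈ Finset.range N, F n v) (fun N => ?_)
        (Eventually.of_forall fun v => (hp v).hasSum.tendsto_sum_nat)
      exact (continuous_finsetSum _ fun n _ => hm n).aestronglyMeasurable
    · refine (norm_tsum_le_tsum_norm ?_).trans ?_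
      · exact Summable.of_nonneg_of_le (fun _ => norm_nonneg _) (fun n => hb n v) (hB.mul_right (D v))
      · rw [← tsum_mul_right]
        exact Summable.tsum_le_tsum (fun n => hb n v)
          (Summable.of_nonneg_of_le (fun _ => norm_nonneg _) (fun n => hb n v)
            (hB.mul_right (D v))) (hB.mul_right (D v))
  · symm
    apply integral_tsum_of_summable_integral_norm hi
    refine Summable.of_nonneg_of_le (fun n => integral_nonneg fun _ => norm_nonneg _)
      (fun n => ?_) (hB.mul_right (∫ v, D v))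
    rw [← integral_const_mul]
    exact integral_mono (hi n).norm (hD.const_mul _) (hb n)

/-- `∫ h / (s - z)` -/
lemma pole_int {F : ℝ → ℂ} (hF2 : ContDiff ℝ 2 F) (hc : HasCompactSupport F) {a : ℝ} (ha : 0 < a) :
    ∫ v : ℝ, hF F v / (a + v * I) =
      2 * Real.pi * ∫ l in Ioi (0 : ℝ), F l * ((Real.exp (-a * l) : ℝ) : ℂ) := by
  have h1 : ∀ v : ℝ, hF F v / (a + v * I) =
      ∫ l in Ioi (0 : ℝ), hF F v * cexp (-(a + v * I) * l) := by
    intro v
    rw [integral_const_mul, integral_exp_mul_complex_Ioi (by simpa using ha)]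
    simp only [ofReal_zero, mul_zero, Complex.exp_zero]
    rw [div_eq_mul_inv]
    congr 1
    rw [neg_div_neg_eq, one_div]
  simp_rw [h1]
  have hint : Integrable (Function.uncurry fun (v l : ℝ) => hF F v * cexp (-(a + v * I) * l))
      (volume.prod (volume.restrict (Ioi (0 : ℝ)))) := by
    have h2 := (hF_int hF2 hc).norm.mul_prod
      (integrableOn_exp_mul_Ioi (a := -a) (by simpa using ha) 0)
    refine h2.mono' ?_ (Eventually.of_forall fun p => ?_)
    · have hcont : Continuous (Function.uncurry fun (v l : ℝ) => hF F v * cexp (-(a + v * I) * l)) := by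
        have := hF_cont hF2 hc
        unfold Function.uncurry
        fun_prop
      exact hcont.aestronglyMeasurable
    · simp only [Function.uncurry]
      rw [norm_mul, Complex.norm_exp]
      apply le_of_eq
      congr 2
      simp
  rw [integral_integral_swap hint, ← integral_const_mul]
  refine setIntegral_congr_fun measurableSet_Ioi fun l _ => ?_
  have h3 := hF_inv hF2 hc l
  have h4 : ∀ v : ℝ, hF F v * cexp (-(a + v * I) * l) =
      (hF F v * cexp (-(l * v * I))) * ((Real.exp (-a * l) : ℝ) : ℂ) := by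
    intro v
    rw [mul_assoc, ofReal_exp, ← Complex.exp_add]
    congr 2
    push_cast
    ring
  simp_rw [h4]
  rw [integral_mul_const, h3]
  ring

/-- the classical series of the digamma function -/
lemma digamma_series {s : ℂ} (hs : 0 < s.re) :
    HasSum (fun n : ℕ => 1 / ((n : ℂ) + 1) - 1 / (s + ((n : ℂ) + 1)))
      (logDeriv Gamma s + Real.eulerMascheroniConstant + 1 / s) := by
  have hs1 : (-1 : ℝ) < s.re := by linarith
  have h1 := H370.DG.logDeriv_Gamma hs
  have h2 := H370.DG.logDeriv_Gamma (s := 1) (by simp)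
  have h3 : logDeriv Gamma 1 = -(Real.eulerMascheroniConstant : ℂ) := by
    rw [← digamma_def, digamma_one]
  have a1 := (H370.DG.summable_gd hs1).hasSum
  have a2 := (H370.DG.summable_gd (s := 1) (by simp)).hasSum
  have a3 := a1.sub a2
  have e1 : ∀ n : ℕ, H370.DG.gd n s - H370.DG.gd n 1 =
      1 / ((n : ℂ) + 3) - 1 / (s + ((n : ℂ) + 2)) := by
    intro n
    unfold H370.DG.gd
    rw [show (1 : ℂ) + ((n : ℂ) + 2) = (n : ℂ) + 3 by ring]
    ring
  simp_rw [e1] at a3
  have hS : (∑' n, H370.DG.gd n s) - ∑' n, H370.DG.gd n 1 =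
      logDeriv Gamma s + 1 / s + 1 / (s + 1) + Real.eulerMascheroniConstant - 3 / 2 := by
    rw [h3] at h2
    rw [h1]
    have : (∑' n, H370.DG.gd n 1) = -(Real.eulerMascheroniConstant : ℂ) + 1 + 1 / 2 := by
      linear_combination -h2
    rw [this]
    ring
  rw [hS] at a3
  have hsum : Summable (fun n : ℕ => 1 / ((n : ℂ) + 1) - 1 / (s + ((n : ℂ) + 1))) := by
    have hb : Summable (fun n : ℕ => ‖s‖ * (1 / ((n : ℝ) + 1) ^ 2)) :=
      H370.DG.summable_inv_sq.mul_left _
    refine Summable.of_norm_bounded hb fun n => ?_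
    have hn : (0 : ℝ) ≤ n := Nat.cast_nonneg n
    have hre : (n : ℝ) + 1 ≤ ‖s + ((n : ℂ) + 1)‖ := by
      refine le_trans ?_ (re_le_norm _)
      simp only [add_re, natCast_re, one_re]
      linarith
    have hn1 : ‖((n : ℂ) + 1)‖ = n + 1 := by
      have : ((n : ℂ) + 1) = ((n + 1 : ℝ) : ℂ) := by push_cast; ring
      rw [this, Complex.norm_real, Real.norm_eq_abs, abs_of_nonneg (by positivity)]
    have hne : s + ((n : ℂ) + 1) ≠ 0 := by
      intro h
      rw [h] at hre
      simp at hre
      linarith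
    have hne2 : ((n : ℂ) + 1) ≠ 0 := by exact_mod_cast Nat.succ_ne_zero n
    have e : 1 / ((n : ℂ) + 1) - 1 / (s + ((n : ℂ) + 1)) = s / (((n : ℂ) + 1) * (s + ((n : ℂ) + 1))) := by
      field_simp
      ring
    rw [e, norm_div, norm_mul, hn1, mul_one_div]
    apply div_le_div₀ (norm_nonneg _) le_rfl (by positivity)
    nlinarith
  have hlim : Tendsto (fun N : ℕ => ∑ n ∈ Finset.range N, (1 / ((n : ℂ) + 1) - 1 / (s + ((n : ℂ) + 1))))
      atTop (𝓝 (logDeriv Gamma s + Real.eulerMascheroniConstant + 1 / s)) := by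
    have h5 : ∀ N : ℕ, ∑ n ∈ Finset.range (N + 2), (1 / ((n : ℂ) + 1) - 1 / (s + ((n : ℂ) + 1))) =
        (∑ n ∈ Finset.range N, (1 / ((n : ℂ) + 3) - 1 / (s + ((n : ℂ) + 2)))) + 3 / 2 - 1 / (s + 1)
          - 1 / (s + ((N : ℂ) + 2)) := by
      intro N
      induction N with
      | zero =>
        simp [Finset.sum_range_succ]
        ring
      | succ N ih =>
        rw [show N + 1 + 2 = (N + 2) + 1 by ring, Finset.sum_range_succ, ih, Finset.sum_range_succ]
        push_cast
        rw [show (N : ℂ) + 2 + 1 = (N : ℂ) + 3 by ring, show (N : ℂ) + 1 + 2 = (N : ℂ) + 3 by ring]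
        ring
    rw [← tendsto_add_atTop_iff_nat 2]
    simp_rw [h5]
    have h6 : Tendsto (fun N : ℕ => 1 / (s + ((N : ℂ) + 2))) atTop (𝓝 0) := by
      rw [tendsto_zero_iff_norm_tendsto_zero]
      refine squeeze_zero (fun _ => norm_nonneg _) (fun N => ?_) tendsto_one_div_add_atTop_nhds_zero_nat
      rw [norm_div, norm_one]
      apply one_div_le_one_div_of_le (by positivity)
      refine le_trans ?_ (re_le_norm _)
      simp only [add_re, natCast_re, re_ofNat]
      linarith
    have h7 := ((a3.tendsto_sum_nat.add_const (3 / 2)).sub_const (1 / (s + 1))).sub h6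
    convert h7 using 2
    ring
  have := hsum.hasSum
  rwa [tendsto_nhds_unique this.tendsto_sum_nat hlim] at this

end Pool.Agent.W364.WP
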