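import Pool.Agent.W187.WP.Stmts
import Pool.Agent.W364.WP.Parts

open Complex MeasureTheory Set Filter Topology

namespace Pool.Agent.W364.WP

open Pool.Agent.W187.WP

/-- test function of the transform -/
noncomputable def FF (g : ℝ → ℂ) (u : ℝ) : ℂ := (g u + g (-u)) * ((Real.exp u : ℝ) : ℂ)

lemma FF_cd {g : ℝ → ℂ} (hg : ContDiff ℝ 2 g) : ContDiff ℝ 2 (FF g) := by
  unfold FF
  have h1 : ContDiff ℝ 2 (fun u : ℝ => g (-u)) := hg.comp contDiff_neg
  have h2 : ContDiff ℝ 2 (fun u : ℝ => ((Real.exp u : ℝ) : ℂ)) :=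
    ofRealCLM.contDiff.comp Real.contDiff_exp
  exact (hg.add h1).mul h2

lemma neg_cs {g : ℝ → ℂ} (hc : HasCompactSupport g) : HasCompactSupport (fun u => g (-u)) := by
  have := hc.comp_homeomorph (Homeomorph.neg ℝ)
  exact this

lemma FF_cs {g : ℝ → ℂ} (hc : HasCompactSupport g) : HasCompactSupport (FF g) := by
  have h : HasCompactSupport (fun u => g u + g (-u)) := hc.add (neg_cs hc)
  exact h.mul_right

lemma lap_sum {g : ℝ → ℂ} (hg : ContDiff ℝ 2 g) (hc : HasCompactSupport g) (v : ℝ) :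
    lap g (1 + v * I) + lap g (-1 - v * I) = hF (FF g) v := by
  unfold lap hF FF
  have h1 : (∫ u : ℝ, g u * cexp ((-1 - v * I) * u)) = ∫ u : ℝ, g (-u) * cexp ((1 + v * I) * u) := by
    rw [← integral_neg_eq_self (fun u : ℝ => g (-u) * cexp ((1 + v * I) * u))]
    congr 1
    ext u
    rw [neg_neg]
    congr 2
    push_cast
    ring
  rw [h1, ← integral_add]
  · congr 1
    ext u
    rw [ofReal_exp, mul_assoc, ← Complex.exp_add, ← add_mul]
    congr 2
    ring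
  · refine Continuous.integrable_of_hasCompactSupport ?_ hc.mul_right
    exact hg.continuous.mul (by fun_prop)
  · refine Continuous.integrable_of_hasCompactSupport ?_ (neg_cs hc).mul_right
    exact (hg.continuous.comp continuous_neg).mul (by fun_prop)

/-- terms of the digamma series -/
noncomputable def ph (n : ℕ) (v : ℝ) : ℂ :=
  1 / (2 * ((n : ℂ) + 1)) - 1 / (3 / 2 + v * I + 2 * ((n : ℂ) + 1))

lemma ph_den (n : ℕ) (v : ℝ) : (3 / 2 + v * I + 2 * ((n : ℂ) + 1)) ≠ 0 := by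
  intro h
  have := congrArg re h
  simp at this
  have hn : (0 : ℝ) ≤ n := Nat.cast_nonneg n
  norm_num at this
  linarith

lemma ph_cont (n : ℕ) : Continuous (ph n) := by
  unfold ph
  refine continuous_const.sub (Continuous.div continuous_const (by fun_prop) (ph_den n))

lemma ph_sum (v : ℝ) : HasSum (fun n => ph n v)
    (logDeriv Gamma ((3 / 2 + v * I) / 2) / 2 + (Real.eulerMascheroniConstant : ℂ) / 2 +
      1 / (3 / 2 + v * I)) := by
  have hs : 0 < ((3 / 2 + v * I : ℂ) / 2).re := by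
    simp
  have h := (digamma_series hs).mul_left (1 / 2)
  have e : (fun n => ph n v) = fun i : ℕ => 1 / 2 * (1 / ((i : ℂ) + 1) -
      1 / ((3 / 2 + v * I) / 2 + ((i : ℂ) + 1))) := by
    funext n
    unfold ph
    have h1 := ph_den n v
    have h2 : ((n : ℂ) + 1) ≠ 0 := by exact_mod_cast Nat.succ_ne_zero n
    have h3 : ((3 / 2 + v * I : ℂ) / 2 + ((n : ℂ) + 1)) ≠ 0 := by
      intro h
      apply h1
      linear_combination 2 * h
    have h4 : 1 / ((3 / 2 + v * I : ℂ) / 2 + ((n : ℂ) + 1)) =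
        2 / (3 / 2 + v * I + 2 * ((n : ℂ) + 1)) := by
      rw [div_eq_div_iff h3 h1]
      ring
    rw [h4]
    field_simp
  have e2 : logDeriv Gamma ((3 / 2 + v * I) / 2) / 2 + (Real.eulerMascheroniConstant : ℂ) / 2 +
      1 / (3 / 2 + v * I) = 1 / 2 * (logDeriv Gamma ((3 / 2 + v * I) / 2) +
        (Real.eulerMascheroniConstant : ℂ) + 1 / ((3 / 2 + v * I) / 2)) := by
    have : 1 / ((3 / 2 + v * I : ℂ) / 2) = 2 / (3 / 2 + v * I) := by
      rw [one_div_div]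
    rw [this]
    ring
  rw [e, e2]
  exact h

lemma ph_bound (n : ℕ) (v : ℝ) :
    ‖ph n v‖ ≤ 2 * (1 + ‖v‖ ^ 2) ^ (1 / 4 : ℝ) * ((n : ℝ) + 1) ^ (-(3 / 2) : ℝ) := by
  have hn : (0 : ℝ) < n + 1 := by positivity
  set m : ℝ := 2 * ((n : ℝ) + 1) with hm
  have hm0 : 0 < m := by positivity
  set S : ℝ := ‖(3 / 2 + v * I : ℂ)‖ with hS
  set T : ℝ := ‖(3 / 2 + v * I + 2 * ((n : ℂ) + 1) : ℂ)‖ with hT
  have hS2 : S ^ 2 = 9 / 4 + v ^ 2 := by
    rw [hS, Complex.sq_norm, Complex.normSq_apply]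
    simp
    ring
  have hT2 : T ^ 2 = (3 / 2 + m) ^ 2 + v ^ 2 := by
    rw [hT, Complex.sq_norm, Complex.normSq_apply]
    simp
    ring
  have hS0 : 0 ≤ S := norm_nonneg _
  have hT0 : 0 < T := norm_pos_iff.mpr (ph_den n v)
  have hST : S * m ≤ T ^ 2 := by nlinarith [sq_nonneg (S - m)]
  have e : ph n v = (3 / 2 + v * I) / (((m : ℝ) : ℂ) * (3 / 2 + v * I + 2 * ((n : ℂ) + 1))) := by
    unfold ph
    have h1 := ph_den n v
    have h2 : ((n : ℂ) + 1) ≠ 0 := by exact_mod_cast Nat.succ_ne_zero n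
    rw [hm]
    push_cast
    rw [div_sub_div _ _ (mul_ne_zero two_ne_zero h2) h1, div_left_inj' (mul_ne_zero (mul_ne_zero two_ne_zero h2) h1)]
    ring
  have e1 : ‖ph n v‖ = S / (m * T) := by
    rw [e, norm_div, norm_mul, Complex.norm_real, Real.norm_eq_abs, abs_of_pos hm0]
  have e2 : ‖ph n v‖ ^ 2 ≤ S / m ^ 3 := by
    rw [e1, div_pow, mul_pow, div_le_div_iff₀ (by positivity) (by positivity)]
    have : S ^ 2 * m ^ 3 = S * m ^ 2 * (S * m) := by ring
    rw [this]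
    have : S * (m ^ 2 * T ^ 2) = S * m ^ 2 * T ^ 2 := by ring
    rw [this]
    exact mul_le_mul_of_nonneg_left hST (by positivity)
  have hv : ‖v‖ ^ 2 = v ^ 2 := by rw [Real.norm_eq_abs, sq_abs]
  rw [hv]
  have hA : 0 ≤ (1 + v ^ 2) ^ (1 / 4 : ℝ) := by positivity
  have hA2 : ((1 + v ^ 2) ^ (1 / 4 : ℝ)) ^ 2 = Real.sqrt (1 + v ^ 2) := by
    rw [← Real.rpow_natCast, ← Real.rpow_mul (by positivity), Real.sqrt_eq_rpow]
    norm_num
  have hB : 0 ≤ ((n : ℝ) + 1) ^ (-(3 / 2) : ℝ) := by positivity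
  have hB2 : (((n : ℝ) + 1) ^ (-(3 / 2) : ℝ)) ^ 2 = 1 / ((n : ℝ) + 1) ^ 3 := by
    rw [← Real.rpow_natCast, ← Real.rpow_mul hn.le]
    have e5 : (-(3 / 2) * ((2 : ℕ) : ℝ) : ℝ) = -((3 : ℕ) : ℝ) := by norm_num
    rw [e5, Real.rpow_neg hn.le, Real.rpow_natCast, one_div]
  have hSs : S ≤ 3 / 2 * Real.sqrt (1 + v ^ 2) := by
    have h0 : 0 ≤ Real.sqrt (1 + v ^ 2) := Real.sqrt_nonneg _
    have h1 : Real.sqrt (1 + v ^ 2) ^ 2 = 1 + v ^ 2 := Real.sq_sqrt (by positivity)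
    apply le_of_sq_le_sq _ (by positivity)
    nlinarith [sq_nonneg v]
  apply le_of_sq_le_sq _ (by positivity)
  refine e2.trans ?_
  have h2 : (2 * (1 + v ^ 2) ^ (1 / 4 : ℝ) * ((n : ℝ) + 1) ^ (-(3 / 2) : ℝ)) ^ 2 =
      2 ^ 2 * ((1 + v ^ 2) ^ (1 / 4 : ℝ)) ^ 2 * (((n : ℝ) + 1) ^ (-(3 / 2) : ℝ)) ^ 2 := by ring
  rw [h2, hA2, hB2, hm, div_le_iff₀ (by positivity)]
  have h3 : (2 : ℝ) ^ 2 * Real.sqrt (1 + v ^ 2) * (1 / ((n : ℝ) + 1) ^ 3) * (2 * ((n : ℝ) + 1)) ^ 3 =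
      32 * Real.sqrt (1 + v ^ 2) := by
    field_simp
    ring
  rw [h3]
  have h0 : 0 ≤ Real.sqrt (1 + v ^ 2) := Real.sqrt_nonneg _
  linarith


/-- the main theorem -/
theorem ef2 : S_EF2 := by
  intro g hg hc
  have hF2 := FF_cd hg
  have hFc := FF_cs hc
  obtain ⟨C, hC, hb⟩ := hF_bound hF2 hFc
  have hcont := hF_cont hF2 hFc
  have hint := hF_int hF2 hFc
  have hpi : (Real.pi : ℂ) ≠ 0 := by exact_mod_cast Real.pi_ne_zero
  -- the von Mangoldt terms
  set Λ' : ℕ → ℂ := fun n => ((ArithmeticFunction.vonMangoldt n : ℝ) : ℂ) with hΛ'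
  let U : ℕ → ℝ → ℂ := fun n v => LSeries.term Λ' (3 / 2 + v * I) n * hF (FF g) v
  let T : ℕ → ℝ → ℂ := fun n v => ph n v * hF (FF g) v
  have hUe : ∀ n v, U n v = ((ArithmeticFunction.vonMangoldt n * Real.exp (-(3 / 2) * Real.log n) : ℝ) : ℂ) *
      (hF (FF g) v * cexp (-(Real.log n * v * I))) := by
    intro n v
    simp only [U]
    rcases eq_or_ne n 0 with rfl | hn
    · simp
    rw [LSeries.term_of_ne_zero hn, div_eq_mul_inv, ← cpow_neg,
      cpow_def_of_ne_zero (by exact_mod_cast hn), ← natCast_log]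
    have : cexp ((Real.log n : ℝ) * -(3 / 2 + v * I)) =
        ((Real.exp (-(3 / 2) * Real.log n) : ℝ) : ℂ) * cexp (-(Real.log n * v * I)) := by
      rw [ofReal_exp, ← Complex.exp_add]
      congr 1
      push_cast
      ring
    rw [this]
    push_cast
    ring
  have hTm : ∀ n, Continuous (T n) := fun n => (ph_cont n).mul hcont
  have hUm : ∀ n, Continuous (U n) := by
    intro n
    have : U n = fun v => ((ArithmeticFunction.vonMangoldt n * Real.exp (-(3 / 2) * Real.log n) : ℝ) : ℂ) *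
      (hF (FF g) v * cexp (-(Real.log n * v * I))) := funext (hUe n)
    rw [this]
    fun_prop
  have hsumΛ : Summable (fun n : ℕ => ‖LSeries.term Λ' (3 / 2) n‖) :=
    (ArithmeticFunction.LSeriesSummable_vonMangoldt (s := 3 / 2) (by norm_num)).norm
  have hUb : ∀ n v, ‖U n v‖ ≤ ‖LSeries.term Λ' (3 / 2) n‖ * ‖hF (FF g) v‖ := by
    intro n v
    simp only [U]
    rw [norm_mul, LSeries.norm_term_eq, LSeries.norm_term_eq]
    simp
  have hsumB : Summable (fun n : ℕ => 2 * C * ((n : ℝ) + 1) ^ (-(3 / 2) : ℝ)) := by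
    have h1 := (summable_nat_add_iff 1).mpr (Real.summable_nat_rpow.mpr (by norm_num : (-(3 / 2) : ℝ) < -1))
    simpa using h1.mul_left (2 * C)
  have hD : Integrable (fun v : ℝ => (1 + ‖v‖ ^ 2) ^ (-(3 / 2) / 2 : ℝ)) :=
    integrable_rpow_neg_one_add_norm_sq (by norm_num)
  have hTb : ∀ n v, ‖T n v‖ ≤ (2 * C * ((n : ℝ) + 1) ^ (-(3 / 2) : ℝ)) *
      (1 + ‖v‖ ^ 2) ^ (-(3 / 2) / 2 : ℝ) := by
    intro n v
    simp only [T]
    rw [norm_mul]
    have hq : (0 : ℝ) < 1 + ‖v‖ ^ 2 := by positivity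
    have h1 := ph_bound n v
    have h2 := hb v
    have h3 : v ^ 2 = ‖v‖ ^ 2 := by rw [Real.norm_eq_abs, sq_abs]
    rw [h3] at h2
    have h4 : (1 + ‖v‖ ^ 2) ^ (-(3 / 2) / 2 : ℝ) = (1 + ‖v‖ ^ 2) ^ (1 / 4 : ℝ) / (1 + ‖v‖ ^ 2) := by
      rw [show (-(3 / 2) / 2 : ℝ) = 1 / 4 - 1 by norm_num, Real.rpow_sub hq, Real.rpow_one]
    rw [h4]
    calc ‖ph n v‖ * ‖hF (FF g) v‖ ≤
        (2 * (1 + ‖v‖ ^ 2) ^ (1 / 4 : ℝ) * ((n : ℝ) + 1) ^ (-(3 / 2) : ℝ)) * (C / (1 + ‖v‖ ^ 2)) :=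
          mul_le_mul h1 h2 (norm_nonneg _) (by positivity)
      _ = _ := by ring
  obtain ⟨hTi, hTs⟩ := tsum_int hTm hD hsumB hTb
  obtain ⟨hUi, hUs⟩ := tsum_int hUm hint.norm hsumΛ hUb
  -- the integrand
  have hden : ∀ (a : ℝ), 0 < a → ∀ v : ℝ, (a + v * I : ℂ) ≠ 0 := by
    intro a ha v h
    have := congrArg re h
    simp at this
    linarith
  have hLL : ∀ v : ℝ, LL (3 / 2 + v * I) * (lap g (1 + v * I) + lap g (-1 - v * I)) =
      hF (FF g) v / (((1 / 2 : ℝ) : ℂ) + v * I) -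
        ((Real.eulerMascheroniConstant + Real.log Real.pi : ℝ) : ℂ) / 2 * hF (FF g) v +
        (∑' n, T n v) - ∑' n, U n v := by
    intro v
    rw [lap_sum hg hc]
    have hs : 1 < (3 / 2 + v * I : ℂ).re := by
      simp
      norm_num
    have h1 := ArithmeticFunction.LSeries_vonMangoldt_eq_deriv_riemannZeta_div hs
    have h2 : (∑' n, U n v) = (-deriv riemannZeta (3 / 2 + v * I) / riemannZeta (3 / 2 + v * I)) *
        hF (FF g) v := by
      rw [← h1, LSeries, ← tsum_mul_right]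
    have h3 : (∑' n, T n v) = (logDeriv Gamma ((3 / 2 + v * I) / 2) / 2 +
        (Real.eulerMascheroniConstant : ℂ) / 2 + 1 / (3 / 2 + v * I)) * hF (FF g) v := by
      rw [← (ph_sum v).tsum_eq, ← tsum_mul_right]
    rw [h2, h3]
    unfold LL
    have h4 : (3 / 2 + v * I - 1 : ℂ) = ((1 / 2 : ℝ) : ℂ) + v * I := by
      push_cast
      ring
    rw [h4]
    push_cast
    ring
  simp_rw [hLL]
  have hA : Integrable (fun v : ℝ => hF (FF g) v / (((1 / 2 : ℝ) : ℂ) + v * I)) := by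
    refine (hint.norm.const_mul 2).mono' ?_ (Eventually.of_forall fun v => ?_)
    · exact (hcont.div (by fun_prop) (hden _ (by norm_num))).aestronglyMeasurable
    · rw [norm_div, div_le_iff₀ (norm_pos_iff.mpr (hden _ (by norm_num) v))]
      have h5 : (1 / 2 : ℝ) ≤ ‖((1 / 2 : ℝ) : ℂ) + v * I‖ := by
        refine le_trans ?_ (re_le_norm _)
        simp
      nlinarith [norm_nonneg (hF (FF g) v)]
  have hB : Integrable (fun v : ℝ => ((Real.eulerMascheroniConstant + Real.log Real.pi : ℝ) : ℂ) / 2 *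
      hF (FF g) v) := hint.const_mul _
  have hAB : Integrable (fun v : ℝ => hF (FF g) v / (((1 / 2 : ℝ) : ℂ) + v * I) -
      ((Real.eulerMascheroniConstant + Real.log Real.pi : ℝ) : ℂ) / 2 * hF (FF g) v) := hA.sub hB
  have hABT : Integrable (fun v : ℝ => hF (FF g) v / (((1 / 2 : ℝ) : ℂ) + v * I) -
      ((Real.eulerMascheroniConstant + Real.log Real.pi : ℝ) : ℂ) / 2 * hF (FF g) v +
      ∑' n, T n v) := hAB.add hTi
  rw [integral_sub hABT hUi, integral_add hAB hTi, integral_sub hA hB,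
    hTs, hUs, integral_const_mul, pole_int hF2 hFc (by norm_num)]
  -- evaluation of the pieces
  have h0 : ∫ v, hF (FF g) v = 2 * Real.pi * (2 * g 0) := by
    have := hF_inv hF2 hFc 0
    simp only [ofReal_zero, zero_mul, neg_zero, Complex.exp_zero, mul_one] at this
    rw [this]
    unfold FF
    simp
    ring
  have hUv : ∀ n : ℕ, ∫ v, U n v = 2 * Real.pi *
      (((ArithmeticFunction.vonMangoldt n / Real.sqrt n : ℝ) : ℂ) *
      (g (Real.log n) + g (-Real.log n))) := by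
    intro n
    simp_rw [hUe n]
    rw [integral_const_mul, hF_inv hF2 hFc]
    unfold FF
    rcases eq_or_ne n 0 with rfl | hn
    · simp
    have hn0 : (0 : ℝ) < n := by exact_mod_cast Nat.pos_of_ne_zero hn
    have e1 : Real.exp (-(3 / 2) * Real.log n) * Real.exp (Real.log n) = 1 / Real.sqrt n := by
      rw [← Real.exp_add, Real.sqrt_eq_rpow, Real.rpow_def_of_pos hn0, one_div, ← Real.exp_neg]
      congr 1
      ring
    have e2 : ((ArithmeticFunction.vonMangoldt n / Real.sqrt n : ℝ) : ℂ) =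
        ((ArithmeticFunction.vonMangoldt n * Real.exp (-(3 / 2) * Real.log n) : ℝ) : ℂ) *
          ((Real.exp (Real.log n) : ℝ) : ℂ) := by
      rw [← ofReal_mul, mul_assoc, e1, mul_one_div]
    rw [e2]
    ring
  have hTv : ∀ n : ℕ, ∫ v, T n v = 2 * Real.pi * (g 0 / ((n : ℂ) + 1) -
      ∫ v in Ioi (0 : ℝ), (g v + g (-v)) *
      ((Real.exp (-(2 * ((n : ℝ) + 1) + 1 / 2) * v) : ℝ) : ℂ)) := by
    intro n
    have hn : (0 : ℝ) ≤ n := Nat.cast_nonneg n
    have hn1 : ((n : ℂ) + 1) ≠ 0 := by exact_mod_cast Nat.succ_ne_zero n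
    have h1 : ∀ v : ℝ, T n v = 1 / (2 * ((n : ℂ) + 1)) * hF (FF g) v -
        hF (FF g) v / (((3 / 2 + 2 * ((n : ℝ) + 1) : ℝ) : ℂ) + v * I) := by
      intro v
      simp only [T, ph]
      have : (3 / 2 + v * I + 2 * ((n : ℂ) + 1)) = ((3 / 2 + 2 * ((n : ℝ) + 1) : ℝ) : ℂ) + v * I := by
        push_cast
        ring
      rw [this]
      ring
    have hI2 : Integrable (fun v : ℝ => hF (FF g) v / (((3 / 2 + 2 * ((n : ℝ) + 1) : ℝ) : ℂ) + v * I)) := by
      refine hint.norm.mono' ?_ (Eventually.of_forall fun v => ?_)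
      · exact (hcont.div (by fun_prop) (hden _ (by positivity))).aestronglyMeasurable
      · rw [norm_div, div_le_iff₀ (norm_pos_iff.mpr (hden _ (by positivity) v))]
        have h5 : (1 : ℝ) ≤ ‖((3 / 2 + 2 * ((n : ℝ) + 1) : ℝ) : ℂ) + v * I‖ := by
          refine le_trans ?_ (re_le_norm _)
          simp
          linarith
        nlinarith [norm_nonneg (hF (FF g) v)]
    simp_rw [h1]
    rw [integral_sub (hint.const_mul _) hI2, integral_const_mul, h0,
      pole_int hF2 hFc (by positivity), mul_sub]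
    congr 1
    · field_simp
    · congr 1
      refine setIntegral_congr_fun measurableSet_Ioi fun v _ => ?_
      simp only [FF]
      rw [mul_assoc, ← ofReal_mul, ← Real.exp_add]
      congr 3
      ring
  simp_rw [hUv, hTv]
  rw [h0, tsum_mul_left, tsum_mul_left]
  have hP : (∫ l in Ioi (0 : ℝ), FF g l * ((Real.exp (-(1 / 2) * l) : ℝ) : ℂ)) =
      ∫ v in Ioi (0 : ℝ), (g v + g (-v)) * ((Real.exp (v / 2) : ℝ) : ℂ) := by
    refine setIntegral_congr_fun measurableSet_Ioi fun v _ => ?_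
    simp only [FF]
    rw [mul_assoc, ← ofReal_mul, ← Real.exp_add]
    congr 3
    ring
  rw [hP]
  unfold WW
  push_cast
  field_simp
  ring

end Pool.Agent.W364.WP
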