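import Mathlib

open Complex MeasureTheory Set Filter Topology FourierTransform

namespace Pool.Agent.W364.WP

/-- the transform -/
noncomputable def hF (F : ℝ → ℂ) (v : ℝ) : ℂ := ∫ u : ℝ, F u * cexp (u * v * I)

lemma hF_eq (F : ℝ → ℂ) (v : ℝ) : hF F v = 𝓕 F (-v / (2 * Real.pi)) := by
  rw [Real.fourier_real_eq_integral_exp_smul, hF]
  congr 1
  ext u
  have hpi : Real.pi ≠ 0 := Real.pi_ne_zero
  rw [smul_eq_mul, mul_comm]
  congr 2
  have : (-2 * Real.pi * u * (-v / (2 * Real.pi)) : ℝ) = u * v := by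
    field_simp
  rw [this]
  push_cast
  ring

lemma norm_hF_le (F : ℝ → ℂ) (v : ℝ) : ‖hF F v‖ ≤ ∫ u, ‖F u‖ := by
  refine (norm_integral_le_integral_norm _).trans (le_of_eq ?_)
  congr 1
  ext u
  rw [norm_mul]
  have : ‖cexp (u * v * I)‖ = 1 := by
    have := Complex.norm_exp_ofReal_mul_I (u * v)
    push_cast at this
    exact this
  rw [this, mul_one]

lemma hF_deriv2 {F : ℝ → ℂ} (hF2 : ContDiff ℝ 2 F) (hc : HasCompactSupport F) (v : ℝ) :
    hF (iteratedDeriv 2 F) v = -(v : ℂ) ^ 2 * hF F v := by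
  have hint : ∀ n : ℕ, (n : ℕ∞) ≤ 2 → Integrable (iteratedDeriv n F) := by
    intro n hn
    refine Continuous.integrable_of_hasCompactSupport ?_ ?_
    · exact hF2.continuous_iteratedDeriv n (by exact_mod_cast hn)
    · rw [iteratedDeriv_eq_iterate]
      clear hn
      induction n with
      | zero => simpa using hc
      | succ k ih =>
        rw [Function.iterate_succ_apply']
        exact ih.deriv
  have h := Real.fourier_iteratedDeriv (f := F) (N := 2) (n := 2) (by exact_mod_cast hF2) hint le_rfl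
  rw [hF_eq, hF_eq, h]
  simp only [smul_eq_mul]
  have hpi : (Real.pi : ℂ) ≠ 0 := by exact_mod_cast Real.pi_ne_zero
  push_cast
  field_simp
  rw [I_sq]
  ring

lemma hF_bound {F : ℝ → ℂ} (hF2 : ContDiff ℝ 2 F) (hc : HasCompactSupport F) :
    ∃ C : ℝ, 0 ≤ C ∧ ∀ v : ℝ, ‖hF F v‖ ≤ C / (1 + v ^ 2) := by
  refine ⟨(∫ u, ‖F u‖) + ∫ u, ‖iteratedDeriv 2 F u‖,
    add_nonneg (integral_nonneg fun _ => norm_nonneg _) (integral_nonneg fun _ => norm_nonneg _),
    fun v => ?_⟩
  rw [le_div_iff₀ (by positivity)]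
  have h1 := norm_hF_le F v
  have h2 := norm_hF_le (iteratedDeriv 2 F) v
  rw [hF_deriv2 hF2 hc, norm_mul, norm_neg, norm_pow, Complex.norm_real, Real.norm_eq_abs,
    sq_abs] at h2
  nlinarith

lemma hF_cont {F : ℝ → ℂ} (hF2 : ContDiff ℝ 2 F) (hc : HasCompactSupport F) :
    Continuous (hF F) := by
  have hi : Integrable F := hF2.continuous.integrable_of_hasCompactSupport hc
  unfold hF
  refine continuous_of_dominated (F := fun (v u : ℝ) => F u * cexp (u * v * I)) (bound := fun u => ‖F u‖)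
    ?_ ?_ hi.norm ?_
  · intro v
    have : Continuous fun u : ℝ => cexp (u * v * I) := by fun_prop
    exact (hF2.continuous.mul this).aestronglyMeasurable
  · intro v
    refine Eventually.of_forall fun u => ?_
    rw [norm_mul]
    have : ‖cexp (u * v * I)‖ = 1 := by
      have := Complex.norm_exp_ofReal_mul_I (u * v)
      push_cast at this
      exact this
    rw [this, mul_one]
  · exact Eventually.of_forall fun u => by fun_prop

lemma integrable_bd : Integrable (fun v : ℝ => (1 + v ^ 2)⁻¹) := integrable_inv_one_add_sq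

lemma hF_int {F : ℝ → ℂ} (hF2 : ContDiff ℝ 2 F) (hc : HasCompactSupport F) :
    Integrable (hF F) := by
  obtain ⟨C, hC, hb⟩ := hF_bound hF2 hc
  refine (integrable_bd.const_mul C).mono' (hF_cont hF2 hc).aestronglyMeasurable
    (Eventually.of_forall fun v => ?_)
  exact (hb v).trans (le_of_eq (by rw [div_eq_mul_inv]))

lemma hF_inv {F : ℝ → ℂ} (hF2 : ContDiff ℝ 2 F) (hc : HasCompactSupport F) (l : ℝ) :
    ∫ v : ℝ, hF F v * cexp (-(l * v * I)) = 2 * Real.pi * F l := by
  have hi : Integrable F := hF2.continuous.integrable_of_hasCompactSupport hc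
  have hpi : Real.pi ≠ 0 := Real.pi_ne_zero
  have hpi0 : 0 < Real.pi := Real.pi_pos
  have hFi : Integrable (𝓕 F) := by
    have h1 := hF_int hF2 hc
    have h2 : Integrable (fun v => hF F ((-(2 * Real.pi)) * v)) :=
      h1.comp_mul_left' (by simp [hpi])
    refine h2.congr (Eventually.of_forall fun v => ?_)
    simp only
    rw [hF_eq]
    congr 1
    field_simp
  have h := congrFun (hF2.continuous.fourierInv_fourier_eq hi hFi) l
  rw [Real.fourierInv_eq'] at h
  have h3 := Measure.integral_comp_mul_left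
    (fun w : ℝ => cexp (↑(2 * Real.pi * inner ℝ w l) * I) • 𝓕 F w) (-(1 / (2 * Real.pi)))
  rw [h] at h3
  have h4 : |(-(1 / (2 * Real.pi)))⁻¹| = 2 * Real.pi := by
    rw [inv_neg, abs_neg, one_div, inv_inv, abs_of_pos (by positivity)]
  rw [h4] at h3
  rw [show (2 * Real.pi : ℂ) * F l = (2 * Real.pi : ℝ) • F l by
    rw [real_smul]; push_cast; ring, ← h3]
  congr 1
  ext v
  rw [hF_eq, smul_eq_mul, mul_comm]
  have e1 : (-(1 / (2 * Real.pi)) * v) = -v / (2 * Real.pi) := by ring
  rw [e1]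
  congr 2
  have e2 : inner ℝ (-v / (2 * Real.pi)) l = l * (-v / (2 * Real.pi)) := by
    simp [inner]
  rw [e2]
  push_cast
  have hpc : (Real.pi : ℂ) ≠ 0 := by exact_mod_cast hpi
  field_simp

end Pool.Agent.W364.WP
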